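import Pool.Agent.helper80.Bar.Main
/-!
Every bar 1-visibility graph has thickness at most three.
-/
namespace Pool.Agent.Results.MP_044e93_co.BarOneThicknessThree
open Pool.Agent.helper80.Bar Pool.Agent.helper68.Arcs

/-- The bar 1-visibility graph of every finite bar representation is the union of three planar
graphs, that is, `T(1) ≤ 3`. -/
theorem result : ∀ (V : Type) [Finite V] (R : BarRep V), ThicknessLe (R.visGraph 1) 3 := by
  intro V _ R
  exact thickness_le_three R

end Pool.Agent.Results.MP_044e93_co.BarOneThicknessThree
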